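import Mathlib
import Pool.Agent.N928.FG.Stm

/-!
Project FG (helper928), leaf HALF (helper291).
-/

set_option autoImplicit false

namespace Pool.Agent.N291.FG

open Pool.Agent.N928.FG

/-- binomial coefficients with an integer as lower entry -/
noncomputable def D (m : ℕ) (j : ℤ) : ℝ := if 0 ≤ j then (m.choose j.toNat : ℝ) else 0

theorem D_succ (m : ℕ) (j : ℤ) : D (m + 1) (j + 1) = D m j + D m (j + 1) := by
  unfold D
  rcases lt_trichotomy j (-1) with h | h | h
  · rw [if_neg (by omega), if_neg (by omega), if_neg (by omega)]; simp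
  · subst h; simp
  · obtain ⟨i, rfl⟩ := Int.eq_ofNat_of_zero_le (show 0 ≤ j by omega)
    rw [if_pos (by omega), if_pos (by omega), if_pos (by omega)]
    have e1 : ((i : ℤ) + 1).toNat = i + 1 := by omega
    have e2 : ((i : ℤ)).toNat = i := by omega
    rw [e1, e2, Nat.choose_succ_succ]
    push_cast
    ring

theorem D_two (m : ℕ) (j : ℤ) : D (m + 2) (j + 1) = D m (j - 1) + 2 * D m j + D m (j + 1) := by
  have h1 := D_succ (m + 1) j
  have h2 := D_succ m (j - 1)
  have h3 := D_succ m j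
  rw [sub_add_cancel] at h2
  rw [h1, h2, h3]
  ring

theorem s_eq : ∀ (n : ℕ) (k : ℤ), s (1 / 2) n k * 4 ^ n = D (2 * n) (n + k) := by
  intro n
  induction n with
  | zero =>
    intro k
    unfold D
    simp only [s, Nat.cast_zero, zero_add, mul_zero, pow_zero, mul_one]
    by_cases hk : k = 0
    · subst hk; simp
    · rw [if_neg hk]
      split_ifs with h
      · have : 0 < k.toNat := by omega
        rw [Nat.choose_eq_zero_of_lt this]; simp
      · rfl
  | succ n ih =>
    intro k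
    have h1 := ih k
    have h2 := ih (k - 1)
    have h3 := ih (k + 1)
    have h4 := D_two (2 * n) (n + k)
    have e1 : ((n + 1 : ℕ) : ℤ) + k = (n + k) + 1 := by push_cast; ring
    have e2 : 2 * (n + 1) = 2 * n + 2 := by ring
    have e3 : (n : ℤ) + (k - 1) = n + k - 1 := by ring
    have e4 : (n : ℤ) + (k + 1) = n + k + 1 := by ring
    rw [e3] at h2
    rw [e4] at h3
    rw [e1, e2, h4, ← h1, ← h2, ← h3]
    simp only [s]
    ring

theorem cb (n : ℕ) : (n.centralBinom : ℝ) ^ 2 * (3 * n + 1) ≤ 16 ^ n := by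
  induction n with
  | zero => simp
  | succ n ih =>
    have h := Nat.succ_mul_centralBinom_succ n
    have h' : ((n : ℝ) + 1) * ((n + 1).centralBinom : ℝ) = 2 * (2 * n + 1) * n.centralBinom := by
      exact_mod_cast h
    set c : ℝ := (n.centralBinom : ℝ)
    set c' : ℝ := ((n + 1).centralBinom : ℝ)
    have hn : (0 : ℝ) ≤ n := by positivity
    have hp : (0 : ℝ) < 16 ^ n := by positivity
    have h2 : (((n : ℝ) + 1) ^ 2 * (3 * n + 1)) * (c' ^ 2 * (3 * ((n + 1 : ℕ) : ℝ) + 1)) =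
        4 * (2 * n + 1) ^ 2 * (3 * n + 4) * (c ^ 2 * (3 * n + 1)) := by
      push_cast
      have : ((n : ℝ) + 1) ^ 2 * c' ^ 2 = 4 * (2 * n + 1) ^ 2 * c ^ 2 := by
        rw [← mul_pow, h']; ring
      calc _ = (((n : ℝ) + 1) ^ 2 * c' ^ 2) * ((3 * n + 1) * (3 * (n + 1) + 1)) := by ring
        _ = _ := by rw [this]; ring
    have h3 : 4 * (2 * (n : ℝ) + 1) ^ 2 * (3 * n + 4) * (c ^ 2 * (3 * n + 1)) ≤
        4 * (2 * n + 1) ^ 2 * (3 * n + 4) * 16 ^ n :=
      mul_le_mul_of_nonneg_left ih (by positivity)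
    have h4 : 4 * (2 * (n : ℝ) + 1) ^ 2 * (3 * n + 4) * 16 ^ n ≤
        (((n : ℝ) + 1) ^ 2 * (3 * n + 1)) * 16 ^ (n + 1) := by
      rw [pow_succ (16 : ℝ) n]
      have : 4 * (2 * (n : ℝ) + 1) ^ 2 * (3 * n + 4) ≤ ((n + 1) ^ 2 * (3 * n + 1)) * 16 := by
        nlinarith
      calc _ ≤ (((n : ℝ) + 1) ^ 2 * (3 * n + 1)) * 16 * 16 ^ n :=
            mul_le_mul_of_nonneg_right this hp.le
        _ = _ := by ring
    have h5 : (0 : ℝ) < ((n : ℝ) + 1) ^ 2 * (3 * n + 1) := by positivity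
    exact le_of_mul_le_mul_left (h2.le.trans (h3.trans h4)) h5

theorem t_HALF : S_HALF := by
  intro n
  have h := s_eq n 0
  have h1 : D (2 * n) (n + 0) = n.centralBinom := by
    unfold D
    rw [if_pos (by omega), Nat.centralBinom_eq_two_mul_choose]
    simp
  rw [h1] at h
  have h4 : (0 : ℝ) < 4 ^ n := by positivity
  have h5 : s (1 / 2) n 0 = n.centralBinom / 4 ^ n := by
    rw [eq_div_iff h4.ne', h]
  have hq : (0 : ℝ) < 3 * n + 1 := by positivity
  have hs : 0 < Real.sqrt (3 * n + 1) := Real.sqrt_pos.2 hq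
  rw [h5, div_le_div_iff₀ h4 hs, one_mul]
  refine (sq_le_sq₀ (by positivity) h4.le).1 ?_
  rw [mul_pow, Real.sq_sqrt hq.le, ← pow_mul, mul_comm n 2, pow_mul]
  norm_num
  exact cb n

end Pool.Agent.N291.FG
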